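import Mathlib
import Pool.Agent.Lib_helper19.BMD.ZeroOne

/-!
# MP_771977_pr: a zero-one law for Peres' question

Either, for every pair of independent standard planar Brownian motions started at the origin,
almost surely `B[0,r] ∩ W[0,r]` contains a connected set with two points for every `0 < r ≤ 1`,
or, for every such pair, almost surely `B[0,1] ∩ W[0,1]` is totally disconnected.
-/

set_option autoImplicit false

open MeasureTheory ProbabilityTheory

namespace Pool.Agent.Results.MP_771977_pr.ZeroOneLaw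

theorem result :
    (∀ (Ω : Type) [MeasurableSpace Ω] (P : Measure Ω) [IsProbabilityMeasure P]
      (Z : Fin 4 → ℝ → Ω → ℝ),
      (∀ i t, Measurable (Z i t)) →
      (∀ i ω, ContinuousOn (fun t => Z i t ω) (Set.Icc (0:ℝ) 1)) →
      (∀ i ω, Z i 0 ω = 0) →
      (∀ (n : ℕ) (t : Fin (n + 1) → ℝ), Monotone t → 0 ≤ t 0 → t (Fin.last n) ≤ 1 →
        iIndepFun
            (fun p : Fin 4 × Fin n => fun ω => Z p.1 (t p.2.succ) ω - Z p.1 (t p.2.castSucc) ω) P ∧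
          ∀ (i : Fin 4) (k : Fin n),
            P.map (fun ω => Z i (t k.succ) ω - Z i (t k.castSucc) ω)
              = gaussianReal 0 (t k.succ - t k.castSucc).toNNReal) →
      ∀ᵐ ω ∂P, ∀ r : ℝ, 0 < r → r ≤ 1 → ∃ C : Set (ℝ × ℝ),
        C ⊆ ((fun t => (Z 0 t ω, Z 1 t ω)) '' Set.Icc (0:ℝ) r ∩
              (fun t => (Z 2 t ω, Z 3 t ω)) '' Set.Icc (0:ℝ) r) ∧
        IsConnected C ∧ C.Nontrivial) ∨
    (∀ (Ω : Type) [MeasurableSpace Ω] (P : Measure Ω) [IsProbabilityMeasure P]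
      (Z : Fin 4 → ℝ → Ω → ℝ),
      (∀ i t, Measurable (Z i t)) →
      (∀ i ω, ContinuousOn (fun t => Z i t ω) (Set.Icc (0:ℝ) 1)) →
      (∀ i ω, Z i 0 ω = 0) →
      (∀ (n : ℕ) (t : Fin (n + 1) → ℝ), Monotone t → 0 ≤ t 0 → t (Fin.last n) ≤ 1 →
        iIndepFun
            (fun p : Fin 4 × Fin n => fun ω => Z p.1 (t p.2.succ) ω - Z p.1 (t p.2.castSucc) ω) P ∧
          ∀ (i : Fin 4) (k : Fin n),
            P.map (fun ω => Z i (t k.succ) ω - Z i (t k.castSucc) ω)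
              = gaussianReal 0 (t k.succ - t k.castSucc).toNNReal) →
      ∀ᵐ ω ∂P, IsTotallyDisconnected
        ((fun t => (Z 0 t ω, Z 1 t ω)) '' Set.Icc (0:ℝ) 1 ∩
          (fun t => (Z 2 t ω, Z 3 t ω)) '' Set.Icc (0:ℝ) 1)) := by
  classical
  by_cases hex : ∃ (Ω : Type) (mΩ : MeasurableSpace Ω) (P : Measure Ω)
      (_ : IsProbabilityMeasure P) (Z : Fin 4 → ℝ → Ω → ℝ), Pool.Agent.BMD.BM P Z ∧
      (P.map (Pool.Agent.BMD.path Z)) Pool.Agent.BMD.A = 1
  · left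
    obtain ⟨Ω₀, mΩ₀, P₀, hP₀, Z₀, h₀, hone⟩ := hex
    intro Ω _ P _ Z h1 h2 h3 h4
    have h : Pool.Agent.BMD.BM P Z := ⟨h1, h2, h3, h4⟩
    have hP : (P.map (Pool.Agent.BMD.path Z)) Pool.Agent.BMD.A = 1 := by
      rw [Pool.Agent.BMD.law_eq h h₀, hone]
    have hn : ∀ n : ℕ, ∀ᵐ ω ∂P,
        Pool.Agent.BMD.HasC (Pool.Agent.BMD.inter Z (Pool.Agent.BMD.aa n) ω) := by
      intro n
      obtain ⟨hm, hp⟩ := Pool.Agent.BMD.prob_r h (Pool.Agent.BMD.aa_pos n)
        (Pool.Agent.BMD.aa_le n)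
      rw [hP] at hp
      exact (mem_ae_iff_prob_eq_one hm).2 hp
    filter_upwards [ae_all_iff.2 hn] with ω hω r hr _
    obtain ⟨n, hnr⟩ := ((Pool.Agent.BMD.aa_tendsto.eventually (gt_mem_nhds hr))).exists
    exact Pool.Agent.BMD.hasC_mono (Pool.Agent.BMD.inter_mono hnr.le ω) (hω n)
  · right
    intro Ω _ P _ Z h1 h2 h3 h4
    have h : Pool.Agent.BMD.BM P Z := ⟨h1, h2, h3, h4⟩
    have hzero : (P.map (Pool.Agent.BMD.path Z)) Pool.Agent.BMD.A = 0 := by
      rcases Pool.Agent.BMD.zero_one h with h0 | h0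
      · exact h0
      · exact absurd ⟨Ω, inferInstance, P, inferInstance, Z, h, h0⟩ hex
    obtain ⟨hm, hp⟩ := Pool.Agent.BMD.prob_r h one_pos le_rfl
    rw [hzero] at hp
    have hae : ∀ᵐ ω ∂P, ¬ Pool.Agent.BMD.HasC (Pool.Agent.BMD.inter Z 1 ω) := by
      rw [ae_iff]
      simpa using hp
    filter_upwards [hae] with ω hω
    intro t ht hpre
    by_contra hns
    rw [Set.not_subsingleton_iff] at hns
    exact hω ⟨t, ht, ⟨hns.nonempty, hpre⟩, hns⟩

end Pool.Agent.Results.MP_771977_pr.ZeroOneLaw
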